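import Mathlib
import Pool.Agent.Q180.VP.Stm

/-!
# Project VP (helper180, helper271), job VP5 LWA
-/

set_option autoImplicit false

namespace Pool.Agent.Q24.VP

open Matrix Pool.Agent.W437.HC
open Pool.Agent.Q271.ZG (dTP)
open Pool.Agent.Q180.VP

section gen

variable {ι : Type} [Fintype ι] [DecidableEq ι]

/-- the sum over the functions which agree with `I` outside `k` -/
theorem sum_agree {n : ℕ} (k : Fin n) (I : Fin n → ι) (F : (Fin n → ι) → ℂ) :
    (∑ J : Fin n → ι, if ∀ l, l ≠ k → J l = I l then F J else 0) =
      ∑ j, F (Function.update I k j) := by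
  rw [← Finset.sum_filter]
  refine (Finset.sum_bij (fun j _ => Function.update I k j) ?_ ?_ ?_ ?_).symm
  · intro j _
    rw [Finset.mem_filter]
    exact ⟨Finset.mem_univ _, fun l hl => Function.update_of_ne hl _ _⟩
  · intro a _ b _ h
    have h1 := congrFun h k
    rwa [Function.update_self, Function.update_self] at h1
  · intro J hJ
    rw [Finset.mem_filter] at hJ
    refine ⟨J k, Finset.mem_univ _, ?_⟩
    funext l
    by_cases h : l = k
    · subst h
      rw [Function.update_self]
    · rw [Function.update_of_ne h, hJ.2 l h]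
  · intro j _
    rfl

theorem sum_agree' {n : ℕ} (k : Fin n) (I : Fin n → ι) (F : (Fin n → ι) → ℂ) :
    (∑ J : Fin n → ι, if ∀ l, l ≠ k → I l = J l then F J else 0) =
      ∑ j, F (Function.update I k j) := by
  rw [← sum_agree]
  refine Finset.sum_congr rfl fun J _ => ?_
  refine if_congr ⟨fun h l hl => (h l hl).symm, fun h l hl => (h l hl).symm⟩ rfl rfl

/-- right multiplication by the derivation -/
theorem mul_dTP {p : ℕ} {κ : Type} (M : Matrix κ (Fin p → ι) ℂ) (y : Matrix ι ι ℂ) (J : κ)
    (I : Fin p → ι) :
    (M * dTP y p) J I = ∑ k, ∑ j, y j (I k) * M J (Function.update I k j) := by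
  rw [Matrix.mul_apply]
  have h1 : ∀ I' : Fin p → ι, M J I' * dTP y p I' I =
      ∑ k, if ∀ l, l ≠ k → I' l = I l then M J I' * y (I' k) (I k) else 0 := by
    intro I'
    rw [dTP, Matrix.of_apply, Finset.mul_sum]
    refine Finset.sum_congr rfl fun k _ => ?_
    rw [mul_ite, mul_zero]
  rw [Finset.sum_congr rfl fun I' _ => h1 I', Finset.sum_comm]
  refine Finset.sum_congr rfl fun k _ => ?_
  rw [sum_agree k I fun I' => M J I' * y (I' k) (I k)]
  refine Finset.sum_congr rfl fun j _ => ?_
  rw [Function.update_self, mul_comm]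

/-- left multiplication by the derivation, summed against a function -/
theorem sum_dTP_mul {q : ℕ} {κ : Type} (F : (Fin q → ι) → ℂ) (M : Matrix (Fin q → ι) κ ℂ)
    (y : Matrix ι ι ℂ) (I : κ) :
    ∑ J, F J * (dTP y q * M) J I =
      ∑ k, ∑ J, ∑ j, F (Function.update J k j) * y j (J k) * M J I := by
  have h1 : ∀ J' : Fin q → ι, F J' * (dTP y q * M) J' I =
      ∑ k, ∑ J, if ∀ l, l ≠ k → J' l = J l then F J' * y (J' k) (J k) * M J I else 0 := by
    intro J'
    rw [Matrix.mul_apply, Finset.mul_sum, Finset.sum_comm]
    refine Finset.sum_congr rfl fun J _ => ?_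
    rw [dTP, Matrix.of_apply, Finset.sum_mul, Finset.mul_sum]
    refine Finset.sum_congr rfl fun k _ => ?_
    rw [ite_mul, zero_mul, mul_ite, mul_zero, mul_assoc]
  rw [Finset.sum_congr rfl fun J' _ => h1 J', Finset.sum_comm]
  refine Finset.sum_congr rfl fun k _ => ?_
  rw [Finset.sum_comm]
  refine Finset.sum_congr rfl fun J _ => ?_
  rw [sum_agree k J fun J' => F J' * y (J' k) (J k) * M J I]
  refine Finset.sum_congr rfl fun j _ => ?_
  rw [Function.update_self]

end gen

theorem lwa : S_lwa := by
  intro g q p M y c hy hM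
  funext K
  set A : Fin q → Fin g ⊕ Fin g := fun k => K (Fin.castAdd p k) with hA
  set B : Fin p → Fin g ⊕ Fin g := fun k => K (Fin.natAdd q k) with hB
  -- the lower variables
  have hlow : ∑ k : Fin p, ∑ j, y j (K (Fin.natAdd q k)) *
      lwr M (Function.update K (Fin.natAdd q k) j) =
      ∑ J, (∏ k, Om g ℂ (A k) (J k)) * (M * dTP y p) J B := by
    have h1 : ∀ (k : Fin p) (j : Fin g ⊕ Fin g),
        lwr M (Function.update K (Fin.natAdd q k) j) =
          ∑ J, (∏ l, Om g ℂ (A l) (J l)) * M J (Function.update B k j) := by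
      intro k j
      rw [lwr]
      refine Finset.sum_congr rfl fun J _ => ?_
      congr 1
      · refine Finset.prod_congr rfl fun l _ => ?_
        rw [Function.update_of_ne]
        intro h
        have h2 := congrArg Fin.val h
        simp only [Fin.val_castAdd, Fin.val_natAdd] at h2
        omega
      · congr 1
        funext l
        by_cases h : l = k
        · subst h
          rw [Function.update_self, Function.update_self]
        · rw [Function.update_of_ne h, Function.update_of_ne]
          intro h2
          exact h (Fin.natAdd_injective _ _ h2)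
    simp only [h1, mul_dTP, Finset.mul_sum]
    rw [Finset.sum_congr rfl fun k _ => Finset.sum_comm, Finset.sum_comm]
    refine Finset.sum_congr rfl fun J _ => Finset.sum_congr rfl fun k _ =>
      Finset.sum_congr rfl fun j _ => ?_
    simp only [hB]
    ring
  -- the upper variables
  have hup : ∑ k : Fin q, ∑ j, y j (K (Fin.castAdd p k)) *
      lwr M (Function.update K (Fin.castAdd p k) j) =
      - ∑ J, (∏ k, Om g ℂ (A k) (J k)) * (dTP y q * M) J B := by
    have h1 : ∀ (k : Fin q) (j : Fin g ⊕ Fin g),
        lwr M (Function.update K (Fin.castAdd p k) j) =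
          ∑ J, (∏ l, Om g ℂ (Function.update A k j l) (J l)) * M J B := by
      intro k j
      rw [lwr]
      refine Finset.sum_congr rfl fun J _ => ?_
      congr 1
      · refine Finset.prod_congr rfl fun l _ => ?_
        congr 1
        by_cases h : l = k
        · subst h
          rw [Function.update_self, Function.update_self]
        · rw [Function.update_of_ne h, Function.update_of_ne]
          intro h2
          exact h (Fin.castAdd_injective _ _ h2)
      · congr 1
        funext l
        rw [Function.update_of_ne]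
        intro h
        have h2 := congrArg Fin.val h
        simp only [Fin.val_castAdd, Fin.val_natAdd] at h2
        omega
    rw [sum_dTP_mul (fun J => ∏ k, Om g ℂ (A k) (J k)) M y B, ← Finset.sum_neg_distrib]
    refine Finset.sum_congr rfl fun k _ => ?_
    simp only [h1, Finset.mul_sum]
    rw [Finset.sum_comm, ← Finset.sum_neg_distrib]
    refine Finset.sum_congr rfl fun J _ => ?_
    -- both sides are a product over the other variables times the k-th factor
    have h2 : ∀ j, (∏ l, Om g ℂ (Function.update A k j l) (J l)) =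
        Om g ℂ j (J k) * ∏ l ∈ Finset.univ.erase k, Om g ℂ (A l) (J l) := by
      intro j
      rw [← Finset.mul_prod_erase _ _ (Finset.mem_univ k), Function.update_self]
      congr 1
      refine Finset.prod_congr rfl fun l hl => ?_
      rw [Function.update_of_ne (Finset.ne_of_mem_erase hl)]
    have h3 : ∀ j, (∏ l, Om g ℂ (A l) (Function.update J k j l)) =
        Om g ℂ (A k) j * ∏ l ∈ Finset.univ.erase k, Om g ℂ (A l) (J l) := by
      intro j
      rw [← Finset.mul_prod_erase _ _ (Finset.mem_univ k), Function.update_self]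
      congr 1
      refine Finset.prod_congr rfl fun l hl => ?_
      rw [Function.update_of_ne (Finset.ne_of_mem_erase hl)]
    have h4 : ∑ j, y j (A k) * Om g ℂ j (J k) = - ∑ j, Om g ℂ (A k) j * y j (J k) := by
      have h5 := congrFun (congrFun hy (A k)) (J k)
      rw [Matrix.add_apply, Matrix.mul_apply, Matrix.mul_apply, Matrix.zero_apply] at h5
      rw [eq_neg_iff_add_eq_zero]
      exact h5
    simp only [h2, h3]
    have h6 : ∀ j, y j (K (Fin.castAdd p k)) *
        (Om g ℂ j (J k) * (∏ l ∈ Finset.univ.erase k, Om g ℂ (A l) (J l)) * M J B) =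
        (y j (A k) * Om g ℂ j (J k)) *
          ((∏ l ∈ Finset.univ.erase k, Om g ℂ (A l) (J l)) * M J B) := by
      intro j
      simp only [hA]
      ring
    have h7 : ∀ j, Om g ℂ (A k) j * (∏ l ∈ Finset.univ.erase k, Om g ℂ (A l) (J l)) *
        y j (J k) * M J B =
        (Om g ℂ (A k) j * y j (J k)) *
          ((∏ l ∈ Finset.univ.erase k, Om g ℂ (A l) (J l)) * M J B) := by
      intro j
      ring
    rw [Finset.sum_congr rfl fun j _ => h6 j, Finset.sum_congr rfl fun j _ => h7 j,
      ← Finset.sum_mul, ← Finset.sum_mul, h4, neg_mul]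
  have hact : act y (lwr M) K = (∑ k : Fin q, ∑ j, y j (K (Fin.castAdd p k)) *
      lwr M (Function.update K (Fin.castAdd p k) j)) +
      ∑ k : Fin p, ∑ j, y j (K (Fin.natAdd q k)) *
      lwr M (Function.update K (Fin.natAdd q k) j) := by
    rw [act, Fin.sum_univ_add]
  rw [hact, hup, hlow, Pi.smul_apply, smul_eq_mul, lwr, Finset.mul_sum, ← Finset.sum_neg_distrib,
    ← Finset.sum_add_distrib]
  refine Finset.sum_congr rfl fun J _ => ?_
  have h8 := congrFun (congrFun hM J) B
  rw [Matrix.sub_apply, Matrix.smul_apply, smul_eq_mul] at h8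
  linear_combination (- ∏ k, Om g ℂ (A k) (J k)) * h8

end Pool.Agent.Q24.VP
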